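import Mathlib
import Pool.Agent.N476.BR.Final
import Pool.Agent.N476.BR.Sets

set_option autoImplicit false

namespace Pool.Agent.Results.MP_6bff71_co.BeatsRandom

/-- `P` is a `k`-term arithmetic progression in `{1, …, n}`, as a set:
`P = {a, a + d, …, a + (k - 1) d}` with `a ≥ 1`, `d ≥ 1` and `a + (k - 1) d ≤ n`. -/
def IsAP (k n : ℕ) (P : Finset ℕ) : Prop :=
  ∃ a d : ℕ, 1 ≤ a ∧ 1 ≤ d ∧ a + (k - 1) * d ≤ n ∧
    P = (Finset.range k).image (fun i => a + i * d)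

/-- The number of `k`-term progressions in `{1, …, n}` that are monochromatic under `χ`. -/
noncomputable def M {r : ℕ} (k n : ℕ) (χ : ℕ → Fin r) : ℕ :=
  {P : Finset ℕ | IsAP k n P ∧ ∀ x ∈ P, ∀ y ∈ P, χ x = χ y}.ncard

/-- For all `k ≥ 3` and `r ≥ 2` there are `δ` below the random rate `1 / (2 (k - 1) r ^ (k - 1))`
and `r`-colourings `χ n` of `{1, …, n}` with `δ n ^ 2 + O(n)` monochromatic `k`-term progressions. -/
theorem result : ∀ k r : ℕ, 3 ≤ k → 2 ≤ r →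
    ∃ δ : ℝ, δ < 1 / (2 * ((k : ℝ) - 1) * (r : ℝ) ^ (k - 1)) ∧
      ∃ (χ : ℕ → ℕ → Fin r) (C : ℝ), ∀ n : ℕ, |(M k n (χ n) : ℝ) - δ * (n : ℝ) ^ 2| ≤ C * n := by
  intro k r hk hr
  obtain ⟨r, rfl⟩ : ∃ r', r = r' + 2 := ⟨r - 2, by omega⟩
  obtain ⟨δ, hδ, χ, C, h⟩ := Pool.Agent.N476.BR.main_aux k r hk
  refine ⟨δ, ?_, χ, C, fun n => ?_⟩
  · push_cast
    exact hδ
  · have h1 : M k n (χ n) = Pool.Agent.N476.BR.cnt k n (χ n) :=
      Pool.Agent.N476.BR.cnt_eq (by omega) (χ n)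
    rw [h1]
    exact h n

end Pool.Agent.Results.MP_6bff71_co.BeatsRandom
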